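import Mathlib

/-!
# Windows: a vector whose spectral windows of width `w` have norm `O(w)` has no spectrum
-/

set_option autoImplicit false

namespace Pool.Agent.Helper61.BC

open scoped InnerProductSpace BoundedContinuousFunction
open Filter

/-- the ramp from `0` at `κ` to `1` at `κ + w` -/
noncomputable def ramp (κ w : ℝ) : ℝ →ᵇ ℂ :=
  BoundedContinuousFunction.ofNormedAddCommGroup
    (fun ρ : ℝ => ((max 0 (min 1 ((ρ - κ) / w)) : ℝ) : ℂ))
    (by fun_prop) 1 (by
      intro ρ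
      rw [Complex.norm_real, Real.norm_of_nonneg (le_max_left _ _)]
      exact max_le zero_le_one (min_le_left _ _))

theorem ramp_apply (κ w ρ : ℝ) : ramp κ w ρ = ((max 0 (min 1 ((ρ - κ) / w)) : ℝ) : ℂ) := rfl

theorem ramp_zero {κ w ρ : ℝ} (hw : 0 < w) (h : ρ ≤ κ) : ramp κ w ρ = 0 := by
  rw [ramp_apply]
  have h1 : (ρ - κ) / w ≤ 0 := div_nonpos_of_nonpos_of_nonneg (by linarith) hw.le
  rw [min_eq_right (by linarith), max_eq_left h1]
  simp

theorem ramp_one {κ w ρ : ℝ} (hw : 0 < w) (h : κ + w ≤ ρ) : ramp κ w ρ = 1 := by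
  rw [ramp_apply]
  have h1 : 1 ≤ (ρ - κ) / w := by rw [le_div_iff₀ hw]; linarith
  rw [min_eq_left h1, max_eq_right zero_le_one]
  simp

/-- the tent of width `w` at `κ` -/
noncomputable def tent (κ w : ℝ) : ℝ →ᵇ ℂ := ramp (κ - w) w - ramp κ w

theorem tent_zero {κ w ρ : ℝ} (hw : 0 < w) (h : w ≤ |ρ - κ|) : tent κ w ρ = 0 := by
  unfold tent
  rw [BoundedContinuousFunction.sub_apply]
  rcases le_abs.1 h with h | h
  · rw [ramp_one hw (by linarith), ramp_one hw (by linarith), sub_self]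
  · rw [ramp_zero hw (by linarith), ramp_zero hw (by linarith), sub_self]

theorem tent_norm {κ w : ℝ} (hw : 0 < w) : ‖tent κ w‖ ≤ 1 := by
  rw [BoundedContinuousFunction.norm_le zero_le_one]
  intro ρ
  unfold tent
  rw [BoundedContinuousFunction.sub_apply, ramp_apply, ramp_apply, ← Complex.ofReal_sub,
    Complex.norm_real, Real.norm_eq_abs, abs_le]
  have h1 : (ρ - κ) / w ≤ (ρ - (κ - w)) / w := by
    apply div_le_div_of_nonneg_right _ hw.le
    linarith
  have h2 : max 0 (min 1 ((ρ - κ) / w)) ≤ max 0 (min 1 ((ρ - (κ - w)) / w)) :=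
    max_le_max le_rfl (min_le_min le_rfl h1)
  have h3 : 0 ≤ max 0 (min 1 ((ρ - κ) / w)) := le_max_left _ _
  have h4 : max 0 (min 1 ((ρ - (κ - w)) / w)) ≤ 1 := max_le zero_le_one (min_le_left _ _)
  constructor <;> linarith

theorem sum_tent (a w : ℝ) (N : ℕ) :
    ∑ k ∈ Finset.range (N + 1), tent (a + k * w) w = ramp (a - w) w - ramp (a + N * w) w := by
  induction N with
  | zero => simp [tent]
  | succ N ih =>
    rw [Finset.sum_range_succ, ih, tent]
    have : a + ((N + 1 : ℕ) : ℝ) * w - w = a + N * w := by push_cast; ring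
    rw [this]
    abel

variable {H : Type*} [NormedAddCommGroup H] [InnerProductSpace ℂ H] [CompleteSpace H]

theorem inner_eq_zero_of_mul (Ψ : (ℝ →ᵇ ℂ) →⋆ₐ[ℂ] (H →L[ℂ] H)) (z : H) {F G : ℝ →ᵇ ℂ}
    (h : ∀ ρ, F ρ = 0 ∨ G ρ = 0) : ⟪Ψ F z, Ψ G z⟫_ℂ = 0 := by
  have h1 : ⟪Ψ F z, Ψ G z⟫_ℂ = ⟪z, Ψ (star F * G) z⟫_ℂ := by
    rw [map_mul, map_star, ContinuousLinearMap.star_eq_adjoint, mul_apply_eq_comp,
      ContinuousLinearMap.adjoint_inner_right]
  have h2 : star F * G = 0 := by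
    ext ρ
    rw [BoundedContinuousFunction.mul_apply, BoundedContinuousFunction.star_apply]
    rcases h ρ with h | h <;> simp [h]
  rw [h1, h2, map_zero]
  simp

/-- If the windows of width `w` around the points of `[a, b]` have norm at most `C w` at `z` then
`z` has no spectrum in `[a, b]`. -/
theorem win (Ψ : (ℝ →ᵇ ℂ) →⋆ₐ[ℂ] (H →L[ℂ] H)) (z : H) {a b w0 C : ℝ} (hab : a < b) (hw0 : 0 < w0)
    (h : ∀ κ ∈ Set.Icc a b, ∀ w, 0 < w → w ≤ w0 → ∀ G : ℝ →ᵇ ℂ, ‖G‖ ≤ 1 →
      (∀ ρ, w < |ρ - κ| → G ρ = 0) → ‖Ψ G z‖ ≤ C * w)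
    (F : ℝ →ᵇ ℂ) (hF : ∀ ρ, ρ ∉ Set.Icc a b → F ρ = 0) : Ψ F z = 0 := by
  classical
  have key : ∀ N : ℕ, 1 ≤ N → (b - a) / N ≤ w0 →
      ‖Ψ F z‖ ^ 2 ≤ (N + 1) * (3 * (‖F‖ * (C * ((b - a) / N))) ^ 2) := by
    intro N hN hNw
    have hN0 : (0 : ℝ) < N := by exact_mod_cast hN
    set w := (b - a) / N with hw
    have hw1 : 0 < w := div_pos (by linarith) hN0
    have hNw2 : a + N * w = b := by rw [hw]; field_simp; ring
    set x : ℕ → H := fun k => Ψ (tent (a + k * w) w * F) z with hx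
    have hsum : Ψ F z = ∑ k ∈ Finset.range (N + 1), x k := by
      have h1 : F = ∑ k ∈ Finset.range (N + 1), tent (a + k * w) w * F := by
        rw [← Finset.sum_mul, sum_tent, hNw2]
        ext ρ
        rw [BoundedContinuousFunction.mul_apply, BoundedContinuousFunction.sub_apply]
        by_cases hρ : ρ ∈ Set.Icc a b
        · rw [ramp_one hw1 (by linarith [hρ.1]), ramp_zero hw1 hρ.2, sub_zero, one_mul]
        · rw [hF ρ hρ, mul_zero]
      conv_lhs => rw [h1]
      rw [map_sum]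
      simp [hx]
    have hxn : ∀ k ∈ Finset.range (N + 1), ‖x k‖ ≤ ‖F‖ * (C * w) := by
      intro k hk
      have hk1 : (k : ℝ) ≤ N := by exact_mod_cast Nat.lt_succ_iff.1 (Finset.mem_range.1 hk)
      have hmem : a + k * w ∈ Set.Icc a b := by
        constructor
        · nlinarith [Nat.cast_nonneg (α := ℝ) k]
        · rw [← hNw2]; nlinarith
      rcases (norm_nonneg F).eq_or_lt with hF0 | hF0
      · have : F = 0 := norm_eq_zero.1 hF0.symm
        rw [hx]
        simp [this]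
      · have h1 := h _ hmem w hw1 hNw ((((‖F‖)⁻¹ : ℝ) : ℂ) • (tent (a + k * w) w * F)) (by
          rw [norm_smul, Complex.norm_real, norm_inv, norm_norm, inv_mul_le_iff₀ hF0, mul_one]
          refine (norm_mul_le _ _).trans ?_
          have := tent_norm (κ := a + k * w) hw1
          nlinarith [norm_nonneg (tent (a + k * w) w)]) (by
          intro ρ hρ
          rw [BoundedContinuousFunction.smul_apply, BoundedContinuousFunction.mul_apply,
            tent_zero hw1 hρ.le, zero_mul, smul_zero])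
        rw [map_smul] at h1
        rw [smul_apply, norm_smul, Complex.norm_real, norm_inv, norm_norm,
          inv_mul_le_iff₀ hF0] at h1
        exact h1
    have hM0 : 0 ≤ ‖F‖ * (C * w) := (norm_nonneg _).trans (hxn 0 (by simp))
    have horth : ∀ k l : ℕ, ¬ (k ≤ l + 1 ∧ l ≤ k + 1) → ⟪x k, x l⟫_ℂ = 0 := by
      intro k l hkl
      apply inner_eq_zero_of_mul
      intro ρ
      rw [BoundedContinuousFunction.mul_apply, BoundedContinuousFunction.mul_apply]
      by_contra hcon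
      push Not at hcon
      have h1 : |ρ - (a + k * w)| < w := by
        by_contra h2
        push Not at h2
        exact hcon.1 (by rw [tent_zero hw1 h2, zero_mul])
      have h2 : |ρ - (a + l * w)| < w := by
        by_contra h2
        push Not at h2
        exact hcon.2 (by rw [tent_zero hw1 h2, zero_mul])
      rw [abs_lt] at h1 h2
      apply hkl
      have h3 : ((k : ℝ) - l) * w < 2 * w := by linarith [h1.1, h1.2, h2.1, h2.2]
      have h4 : ((l : ℝ) - k) * w < 2 * w := by linarith [h1.1, h1.2, h2.1, h2.2]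
      have h5 : (k : ℝ) - l < 2 := lt_of_mul_lt_mul_right h3 hw1.le
      have h6 : (l : ℝ) - k < 2 := lt_of_mul_lt_mul_right h4 hw1.le
      have h7 : (k : ℝ) < ((l + 2 : ℕ) : ℝ) := by push_cast; linarith
      have h8 : (l : ℝ) < ((k + 2 : ℕ) : ℝ) := by push_cast; linarith
      have h9 : k < l + 2 := by exact_mod_cast h7
      have h10 : l < k + 2 := by exact_mod_cast h8
      omega
    have hnorm : ‖Ψ F z‖ ^ 2 ≤ ∑ k ∈ Finset.range (N + 1), ∑ l ∈ Finset.range (N + 1),
        ‖⟪x k, x l⟫_ℂ‖ := by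
      have h1 : ((‖Ψ F z‖ ^ 2 : ℝ) : ℂ) =
          ∑ k ∈ Finset.range (N + 1), ∑ l ∈ Finset.range (N + 1), ⟪x k, x l⟫_ℂ := by
        have h0 : ⟪Ψ F z, Ψ F z⟫_ℂ = ((‖Ψ F z‖ ^ 2 : ℝ) : ℂ) := by
          rw [inner_self_eq_norm_sq_to_K]
          norm_cast
        rw [← h0, hsum, sum_inner]
        exact Finset.sum_congr rfl fun k _ => inner_sum _ _ _
      have h2 : ‖Ψ F z‖ ^ 2 = ‖((‖Ψ F z‖ ^ 2 : ℝ) : ℂ)‖ := by
        rw [Complex.norm_real, Real.norm_of_nonneg (by positivity)]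
      rw [h2, h1]
      refine (norm_sum_le _ _).trans (Finset.sum_le_sum fun k _ => norm_sum_le _ _)
    refine hnorm.trans ?_
    have hrow : ∀ k ∈ Finset.range (N + 1), ∑ l ∈ Finset.range (N + 1), ‖⟪x k, x l⟫_ℂ‖ ≤
        3 * (‖F‖ * (C * w)) ^ 2 := by
      intro k hk
      have h1 : ∑ l ∈ Finset.range (N + 1), ‖⟪x k, x l⟫_ℂ‖ =
          ∑ l ∈ (Finset.range (N + 1)).filter (fun l => k ≤ l + 1 ∧ l ≤ k + 1),
            ‖⟪x k, x l⟫_ℂ‖ := by
        rw [Finset.sum_filter]
        refine Finset.sum_congr rfl fun l _ => ?_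
        by_cases hkl : k ≤ l + 1 ∧ l ≤ k + 1
        · rw [if_pos hkl]
        · rw [if_neg hkl, horth k l hkl, norm_zero]
      rw [h1]
      have h2 : ∀ l ∈ (Finset.range (N + 1)).filter (fun l => k ≤ l + 1 ∧ l ≤ k + 1),
          ‖⟪x k, x l⟫_ℂ‖ ≤ (‖F‖ * (C * w)) ^ 2 := by
        intro l hl
        refine (norm_inner_le_norm _ _).trans ?_
        rw [sq]
        exact mul_le_mul (hxn k hk) (hxn l (Finset.mem_filter.1 hl).1) (norm_nonneg _) hM0
      refine (Finset.sum_le_card_nsmul _ _ _ h2).trans ?_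
      rw [nsmul_eq_mul]
      refine mul_le_mul_of_nonneg_right ?_ (by positivity)
      have h3 : (Finset.range (N + 1)).filter (fun l => k ≤ l + 1 ∧ l ≤ k + 1) ⊆
          {k - 1, k, k + 1} := by
        intro l hl
        have := (Finset.mem_filter.1 hl).2
        simp only [Finset.mem_insert, Finset.mem_singleton]
        omega
      have h4 := (Finset.card_le_card h3).trans Finset.card_le_three
      exact_mod_cast h4
    refine (Finset.sum_le_sum hrow).trans ?_
    rw [Finset.sum_const, Finset.card_range, nsmul_eq_mul]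
    push_cast
    exact le_rfl
  -- let `N → ∞`
  have hlim : Tendsto (fun N : ℕ => (((N : ℝ) + 1) * (3 * (‖F‖ * (C * ((b - a) / N))) ^ 2)))
      atTop (nhds 0) := by
    have h1 : Tendsto (fun N : ℕ => (1 : ℝ) / (N : ℝ)) atTop (nhds 0) :=
      tendsto_one_div_atTop_nhds_zero_nat
    have h2 : Tendsto (fun N : ℕ => (3 * (‖F‖ * (C * (b - a))) ^ 2) *
        ((1 + 1 / (N : ℝ)) * (1 / (N : ℝ)))) atTop (nhds ((3 * (‖F‖ * (C * (b - a))) ^ 2) *
          ((1 + 0) * 0))) := by
      exact ((tendsto_const_nhds.add h1).mul h1).const_mul _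
    rw [mul_zero, mul_zero] at h2
    refine h2.congr' ?_
    filter_upwards [eventually_ge_atTop 1] with N hN
    have hN0 : (N : ℝ) ≠ 0 := by positivity
    field_simp
  have hsmall : ∀ᶠ N : ℕ in atTop, (b - a) / N ≤ w0 := by
    have h1 : Tendsto (fun N : ℕ => (b - a) / (N : ℝ)) atTop (nhds 0) :=
      tendsto_const_div_atTop_nhds_zero_nat _
    exact (tendsto_order.1 h1).2 w0 hw0 |>.mono fun N hN => hN.le
  have hle : ‖Ψ F z‖ ^ 2 ≤ 0 := by
    refine ge_of_tendsto hlim ?_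
    filter_upwards [hsmall, eventually_ge_atTop 1] with N h1 h2
    exact key N h2 h1
  have h0 : ‖Ψ F z‖ = 0 := by
    have := norm_nonneg (Ψ F z)
    nlinarith
  exact norm_eq_zero.1 h0

end Pool.Agent.Helper61.BC
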